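import Mathlib
import Pool.Agent.Helper160IEM.H

set_option autoImplicit false

/-!
MP_78e4b4_an, Q1, negated form, for every finite smoothness class `r ≥ 1`: there are a standard
interval exchange map `T₀` without connections (four letters, Keane's not uniquely ergodic
examples) such that the set of generalized `C^r` interval exchange maps semi-conjugate to `T₀`,
and more generally every set containing it, is not a topological submanifold of codimension
`d - 1 = 3`.
-/

open Pool.Agent.Helper160IEM

universe v

/-- For every `r ≥ 1` there are irreducible combinatorial data on four letters and a standard
interval exchange map `T₀` without connections such that no set `S` containing all generalized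
`C^r` interval exchange maps semi-conjugate to `T₀` is a topological submanifold of codimension
three of `X^r`. -/
theorem Pool.Agent.Results.MP_78e4b4_an.KeaneNotSubmanifold.result (r : ℕ) (hr : 1 ≤ r) :
    ∃ π : Comb 4, π.Irreducible ∧ ∃ T₀ : GIEM 4 r, T₀.IsStandard π ∧ T₀.NoConnection π ∧
      ∀ S : Set (GIEM 4 r), {T : GIEM 4 r | T.SemiConj T₀ π} ⊆ S →
        ¬ IsTopSubmanifold.{0, v} S 3 :=
  H_final r hr
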